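import Pool.Agent.Helper70.SK.Stmts
import Pool.Agent.Helper70.SK.Lib

/-! Sticky Kakeya: module LAG (coefficient of degree p by Lagrange interpolation). -/

namespace Pool.Agent.Helper70.SK

open Finset

theorem st_LAG : ST_LAG := by
  intro p P t sep b hP hsep ht hb
  have hinj : Set.InjOn t (Finset.univ : Finset (Fin (p + 1))) := by
    intro i _ j _ hij
    by_contra hne
    have h1 := ht i j hne
    rw [hij, sub_self, abs_zero] at h1
    linarith
  have hb0 : 0 ≤ b := le_trans (abs_nonneg _) (hb 0)
  have hdeg : P.degree ≤ p := Polynomial.degree_le_of_natDegree_le hP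
  have hc := Lagrange.coeff_eq_sum hinj (P := P)
    (by
      rw [Finset.card_univ, Fintype.card_fin]
      exact lt_of_le_of_lt hdeg (by exact_mod_cast Nat.lt_succ_self p))
  rw [Finset.card_univ, Fintype.card_fin, Nat.add_sub_cancel] at hc
  rw [hc]
  have hterm : ∀ i : Fin (p + 1), |P.eval (t i) / ∏ j ∈ Finset.univ.erase i, (t i - t j)| * sep ^ p ≤ b := by
    intro i
    have hprod : sep ^ p ≤ |∏ j ∈ Finset.univ.erase i, (t i - t j)| := by
      rw [Finset.abs_prod]
      have hcard : (Finset.univ.erase i : Finset (Fin (p + 1))).card = p := by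
        rw [Finset.card_erase_of_mem (Finset.mem_univ i), Finset.card_univ, Fintype.card_fin]
        rfl
      calc sep ^ p = ∏ _j ∈ (Finset.univ.erase i : Finset (Fin (p + 1))), sep := by
            rw [Finset.prod_const, hcard]
        _ ≤ ∏ j ∈ Finset.univ.erase i, |t i - t j| := by
            apply Finset.prod_le_prod
            · intro _ _
              exact hsep.le
            · intro j hj
              exact ht i j (Finset.ne_of_mem_erase hj).symm
    have hpos : 0 < |∏ j ∈ Finset.univ.erase i, (t i - t j)| := lt_of_lt_of_le (pow_pos hsep p) hprod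
    rw [abs_div, div_mul_eq_mul_div, div_le_iff₀ hpos]
    calc |P.eval (t i)| * sep ^ p ≤ b * sep ^ p :=
          mul_le_mul_of_nonneg_right (hb i) (pow_nonneg hsep.le p)
      _ ≤ b * |∏ j ∈ Finset.univ.erase i, (t i - t j)| :=
          mul_le_mul_of_nonneg_left hprod hb0
  calc |∑ i, P.eval (t i) / ∏ j ∈ Finset.univ.erase i, (t i - t j)| * sep ^ p
      ≤ (∑ i, |P.eval (t i) / ∏ j ∈ Finset.univ.erase i, (t i - t j)|) * sep ^ p :=
        mul_le_mul_of_nonneg_right (Finset.abs_sum_le_sum_abs _ _) (pow_nonneg hsep.le p)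
    _ = ∑ i, |P.eval (t i) / ∏ j ∈ Finset.univ.erase i, (t i - t j)| * sep ^ p := by
        rw [Finset.sum_mul]
    _ ≤ ∑ _i : Fin (p + 1), b := Finset.sum_le_sum (fun i _ => hterm i)
    _ = (p + 1) * b := by
        rw [Finset.sum_const, Finset.card_univ, Fintype.card_fin, nsmul_eq_mul]
        push_cast
        ring

end Pool.Agent.Helper70.SK
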